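import Mathlib

set_option autoImplicit false

/-!
# Matricial cycles need not be split conjugations: the case `n = 1`, `Γ = ℤ²`

For a finite presentation `⟨x_0, ..., x_{k-1} | r_0, ..., r_{m-1}⟩` of a group `Γ` let `d0` and `d1`
be the boundary matrices of its presentation complex: `d0` is the column with entries `1 - x_i`,
and `d1` is the matrix of the Fox derivatives of the relators. The presentation complex is the
2-skeleton of a `K(Γ, 1)` (add cells of dimension `≥ 3`), and for `n = 1` the question only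
involves this 2-skeleton. We show that for `Γ = ℤ² = ⟨s, t | s t s⁻¹ t⁻¹⟩` the matrix
`a = [[0, s], [-t, 0]]` satisfies `d0* a d0 = 0` but is not of the form `d1* x + y d1`.
-/

namespace Pool.Agent.Results.MP_abda90_al.FreeAbelianRankTwo

open Matrix MonoidAlgebra

/-- The group presented by `k` generators and the `m` relators `r`. -/
abbrev Gp {k m : ℕ} (r : Fin m → FreeGroup (Fin k)) : Type := PresentedGroup (Set.range r)

/-- The class of a word, as an element of the real group algebra `ℝΓ`. -/
noncomputable def el {k m : ℕ} (r : Fin m → FreeGroup (Fin k)) :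
    FreeGroup (Fin k) →* MonoidAlgebra ℝ (Gp r) :=
  (MonoidAlgebra.of ℝ (Gp r)).comp (PresentedGroup.mk (Set.range r))

/-- Auxiliary: the unit `[[x_i, δ_ij], [0, 1]]` of the ring of `2 × 2` matrices over `ℝΓ`. -/
noncomputable def foxUnit {k m : ℕ} (r : Fin m → FreeGroup (Fin k)) (j i : Fin k) :
    (Matrix (Fin 2) (Fin 2) (MonoidAlgebra ℝ (Gp r)))ˣ where
  val := !![el r (FreeGroup.of i), if i = j then 1 else 0; 0, 1]
  inv := !![el r (FreeGroup.of i)⁻¹, if i = j then - el r (FreeGroup.of i)⁻¹ else 0; 0, 1]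
  val_inv := by
    have h : el r (FreeGroup.of i) * el r (FreeGroup.of i)⁻¹ = 1 := by
      rw [← map_mul, mul_inv_cancel, map_one]
    rw [Matrix.mul_fin_two, Matrix.one_fin_two]
    split_ifs <;> simp [h]
  inv_val := by
    have h : el r (FreeGroup.of i)⁻¹ * el r (FreeGroup.of i) = 1 := by
      rw [← map_mul, inv_mul_cancel, map_one]
    rw [Matrix.mul_fin_two, Matrix.one_fin_two]
    split_ifs <;> simp [h]

/-- The Fox derivative `∂w/∂x_j` (with values in `ℝΓ`) of a word `w`. See `fox_of` and `fox_mul`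
for the rules which determine it. -/
noncomputable def fox {k m : ℕ} (r : Fin m → FreeGroup (Fin k)) (j : Fin k)
    (w : FreeGroup (Fin k)) : MonoidAlgebra ℝ (Gp r) :=
  (FreeGroup.lift (foxUnit r j) w).val 0 1

theorem lift_val {k m : ℕ} (r : Fin m → FreeGroup (Fin k)) (j : Fin k) (w : FreeGroup (Fin k)) :
    (FreeGroup.lift (foxUnit r j) w).val = !![el r w, fox r j w; 0, 1] := by
  induction w using FreeGroup.induction_on with
  | C1 =>
    have h : fox r j 1 = 0 := by simp [fox]
    rw [h, map_one, map_one, Units.val_one, Matrix.one_fin_two]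
  | of i =>
    have h : fox r j (FreeGroup.of i) = if i = j then 1 else 0 := by simp [fox, foxUnit]
    change (FreeGroup.lift (foxUnit r j) (FreeGroup.of i)).val = _
    rw [FreeGroup.lift_apply_of, h]
    rfl
  | inv_of i _ =>
    have h : fox r j (FreeGroup.of i)⁻¹ = if i = j then - el r (FreeGroup.of i)⁻¹ else 0 := by
      rw [fox, map_inv, FreeGroup.lift_apply_of]
      rfl
    change (FreeGroup.lift (foxUnit r j) (FreeGroup.of i)⁻¹).val = _
    rw [map_inv, FreeGroup.lift_apply_of, h]
    rfl
  | mul u v hu hv =>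
    have h : fox r j (u * v) = el r u * fox r j v + fox r j u := by
      rw [fox, map_mul, Units.val_mul, hu, hv, Matrix.mul_fin_two]
      simp
    rw [map_mul, Units.val_mul, hu, hv, h, Matrix.mul_fin_two, map_mul]
    simp

/-- Fox derivatives of the generators. -/
theorem fox_of {k m : ℕ} (r : Fin m → FreeGroup (Fin k)) (j i : Fin k) :
    fox r j (FreeGroup.of i) = if i = j then 1 else 0 := by simp [fox, foxUnit]

/-- The product rule of the Fox calculus. -/
theorem fox_mul {k m : ℕ} (r : Fin m → FreeGroup (Fin k)) (j : Fin k) (u v : FreeGroup (Fin k)) :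
    fox r j (u * v) = fox r j u + el r u * fox r j v := by
  rw [fox, map_mul, Units.val_mul, lift_val, lift_val, Matrix.mul_fin_two]
  simp [add_comm]

theorem fox_inv {k m : ℕ} (r : Fin m → FreeGroup (Fin k)) (j : Fin k) (u : FreeGroup (Fin k)) :
    fox r j u⁻¹ = - (el r u⁻¹ * fox r j u) := by
  have h1 : fox r j 1 = 0 := by simp [fox]
  have h2 := fox_mul r j u⁻¹ u
  rw [inv_mul_cancel, h1] at h2
  exact eq_neg_of_add_eq_zero_left h2.symm

/-- The boundary matrix `d_0`: the column with entries `1 - x_i`. -/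
noncomputable def d0 {k m : ℕ} (r : Fin m → FreeGroup (Fin k)) :
    Matrix (Fin k) (Fin 1) (MonoidAlgebra ℝ (Gp r)) :=
  Matrix.of fun i _ => 1 - el r (FreeGroup.of i)

/-- The boundary matrix `d_1`: the matrix of the Fox derivatives of the relators. -/
noncomputable def d1 {k m : ℕ} (r : Fin m → FreeGroup (Fin k)) :
    Matrix (Fin m) (Fin k) (MonoidAlgebra ℝ (Gp r)) :=
  Matrix.of fun i j => fox r j (r i)

/-- The involution `(∑ a_γ γ)* = ∑ a_γ γ⁻¹` of the group algebra. -/
noncomputable def conj {G : Type} [Group G] (x : MonoidAlgebra ℝ G) : MonoidAlgebra ℝ G :=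
  MonoidAlgebra.mapDomain (fun g => g⁻¹) x

/-- `a*`: transpose the matrix and apply the involution to every entry. -/
noncomputable def adj {G : Type} [Group G] {p q : Type} (a : Matrix p q (MonoidAlgebra ℝ G)) :
    Matrix q p (MonoidAlgebra ℝ G) :=
  Matrix.of fun i j => conj (a j i)

/-- The statement `ker D_0 = SC_1` for the presentation with relators `r`. -/
def KerEqSplit {k m : ℕ} (r : Fin m → FreeGroup (Fin k)) : Prop :=
  ∀ a : Matrix (Fin k) (Fin k) (MonoidAlgebra ℝ (Gp r)),
    adj (d0 r) * a * d0 r = 0 ↔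
      ∃ (x : Matrix (Fin m) (Fin k) (MonoidAlgebra ℝ (Gp r)))
        (y : Matrix (Fin k) (Fin m) (MonoidAlgebra ℝ (Gp r))),
        a = adj (d1 r) * x + y * d1 r

/-- The relator `s t s⁻¹ t⁻¹`. -/
def comm : Fin 1 → FreeGroup (Fin 2) := fun _ =>
  FreeGroup.of 0 * FreeGroup.of 1 * (FreeGroup.of 0)⁻¹ * (FreeGroup.of 1)⁻¹

/-- The augmentation. -/
noncomputable def aug {G : Type} [Group G] : MonoidAlgebra ℝ G →ₐ[ℝ] ℝ :=
  MonoidAlgebra.lift ℝ ℝ G 1

theorem aug_conj {G : Type} [Group G] (x : MonoidAlgebra ℝ G) : aug (conj x) = aug x := by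
  unfold conj
  induction x using MonoidAlgebra.induction_linear with
  | zero => simp
  | add f g hf hg => rw [MonoidAlgebra.mapDomain_add, map_add, map_add, hf, hg]
  | single a b => rw [MonoidAlgebra.mapDomain_single]; simp [aug]

theorem aug_el {k m : ℕ} (r : Fin m → FreeGroup (Fin k)) (w : FreeGroup (Fin k)) :
    aug (el r w) = 1 := by
  simp [aug, el]

theorem conj_el {k m : ℕ} (r : Fin m → FreeGroup (Fin k)) (w : FreeGroup (Fin k)) :
    conj (el r w) = el r w⁻¹ := by
  simp [conj, el, MonoidAlgebra.mapDomain_single]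

theorem conj_sub {G : Type} [Group G] (x y : MonoidAlgebra ℝ G) :
    conj (x - y) = conj x - conj y := by
  have h : conj (x - y) + conj y = conj x := by
    unfold conj
    rw [← MonoidAlgebra.mapDomain_add, sub_add_cancel]
  exact eq_sub_of_add_eq h

theorem mk_comm : PresentedGroup.mk (Set.range comm) (FreeGroup.of 0 * FreeGroup.of 1) =
    PresentedGroup.mk (Set.range comm) (FreeGroup.of 1 * FreeGroup.of 0) := by
  have h1 : PresentedGroup.mk (Set.range comm) (comm 0) = 1 :=
    PresentedGroup.one_of_mem (Set.mem_range_self 0)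
  have h3 : FreeGroup.of 0 * FreeGroup.of 1 =
      comm 0 * (FreeGroup.of 1 * FreeGroup.of 0 : FreeGroup (Fin 2)) := by
    simp [comm, mul_assoc]
  rw [h3, map_mul, h1, one_mul]

/-- The presented group is `ℤ²`. -/
theorem gp_equiv : Nonempty (Gp comm ≃* Multiplicative (ℤ × ℤ)) := by
  set s : Gp comm := PresentedGroup.of 0 with hs
  set t : Gp comm := PresentedGroup.of 1 with ht
  have hst : Commute s t := by
    have := mk_comm
    rw [map_mul, map_mul] at this
    exact this
  let g : Fin 2 → Multiplicative (ℤ × ℤ) :=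
    ![Multiplicative.ofAdd (1, 0), Multiplicative.ofAdd (0, 1)]
  have hg : ∀ r ∈ Set.range comm, FreeGroup.lift g r = 1 := by
    rintro _ ⟨i, rfl⟩
    simp only [comm, map_mul, map_inv, FreeGroup.lift_apply_of]
    rw [mul_comm (g 0) (g 1)]
    simp
  let f : Gp comm →* Multiplicative (ℤ × ℤ) := PresentedGroup.toGroup hg
  let h : Multiplicative (ℤ × ℤ) →* Gp comm :=
    { toFun := fun z => s ^ (Multiplicative.toAdd z).1 * t ^ (Multiplicative.toAdd z).2
      map_one' := by simp
      map_mul' := by
        intro a b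
        have hc : t ^ (Multiplicative.toAdd a).2 * s ^ (Multiplicative.toAdd b).1 =
            s ^ (Multiplicative.toAdd b).1 * t ^ (Multiplicative.toAdd a).2 :=
          ((hst.zpow_zpow _ _).eq).symm
        simp only [toAdd_mul, Prod.fst_add, Prod.snd_add, _root_.zpow_add]
        rw [mul_assoc, mul_assoc, ← mul_assoc (t ^ _) (s ^ _), hc]
        simp only [mul_assoc] }
  refine ⟨MonoidHom.toMulEquiv f h ?_ ?_⟩
  · apply PresentedGroup.ext
    intro i
    fin_cases i <;> simp [f, h, g, hs, ht]
  · ext z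
    · simp [f, h, g, hs, ht]
    · simp [f, h, g, hs, ht]

/-- For the presentation `⟨s, t | s t s⁻¹ t⁻¹⟩` of `ℤ²` there is a matrix `a` with
`d_0* a d_0 = 0` which is not of the form `d_1* x + y d_1`. Hence the equality `ker D_0 = SC_1`
does not hold for all finitely presented groups and all finite presentations. -/
theorem result :
    Nonempty (Gp comm ≃* Multiplicative (ℤ × ℤ)) ∧
    (∃ a : Matrix (Fin 2) (Fin 2) (MonoidAlgebra ℝ (Gp comm)),
      adj (d0 comm) * a * d0 comm = 0 ∧
      ¬ ∃ (x : Matrix (Fin 1) (Fin 2) (MonoidAlgebra ℝ (Gp comm)))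
          (y : Matrix (Fin 2) (Fin 1) (MonoidAlgebra ℝ (Gp comm))),
          a = adj (d1 comm) * x + y * d1 comm) ∧
    ¬ ∀ (k m : ℕ) (r : Fin m → FreeGroup (Fin k)), KerEqSplit r := by
  have main : ∃ a : Matrix (Fin 2) (Fin 2) (MonoidAlgebra ℝ (Gp comm)),
      adj (d0 comm) * a * d0 comm = 0 ∧
      ¬ ∃ (x : Matrix (Fin 1) (Fin 2) (MonoidAlgebra ℝ (Gp comm)))
          (y : Matrix (Fin 2) (Fin 1) (MonoidAlgebra ℝ (Gp comm))),
          a = adj (d1 comm) * x + y * d1 comm := by
    set s := el comm (FreeGroup.of 0) with hs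
    set t := el comm (FreeGroup.of 1) with ht
    have hcomm : s * t = t * s := by
      rw [hs, ht, ← map_mul, ← map_mul, el, MonoidHom.comp_apply, MonoidHom.comp_apply, mk_comm]
    refine ⟨!![0, s; -t, 0], ?_, ?_⟩
    · have e0 : el comm (FreeGroup.of 0)⁻¹ * s = 1 := by
        rw [hs, ← map_mul, inv_mul_cancel, map_one]
      have e1 : el comm (FreeGroup.of 1)⁻¹ * t = 1 := by
        rw [ht, ← map_mul, inv_mul_cancel, map_one]
      have c0 : conj (1 - s) = 1 - el comm (FreeGroup.of 0)⁻¹ := by
        rw [conj_sub, hs, conj_el, ← map_one (el comm), conj_el, inv_one]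
      have c1 : conj (1 - t) = 1 - el comm (FreeGroup.of 1)⁻¹ := by
        rw [conj_sub, ht, conj_el, ← map_one (el comm), conj_el, inv_one]
      ext i j
      have hi : i = 0 := Subsingleton.elim _ _
      have hj : j = 0 := Subsingleton.elim _ _
      subst hi hj
      have h : (adj (d0 comm) * !![0, s; -t, 0] * d0 comm) 0 0 =
          conj (1 - t) * (-t) * (1 - s) + conj (1 - s) * s * (1 - t) := by
        simp [Matrix.mul_apply, Fin.sum_univ_two, adj, d0, ← hs, ← ht]
      rw [h, c0, c1]
      have f0 : (1 - el comm (FreeGroup.of 0)⁻¹) * s = s - 1 := by rw [sub_mul, e0, one_mul]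
      have f1 : (1 - el comm (FreeGroup.of 1)⁻¹) * (-t) = 1 - t := by
        rw [mul_neg, sub_mul, e1, one_mul, neg_sub]
      rw [f0, f1, Matrix.zero_apply]
      have : (1 - t) * (1 - s) + (s - 1) * (1 - t) = t * s - s * t := by noncomm_ring
      rw [this, hcomm, sub_self]
    · rintro ⟨x, y, h⟩
      have h01 := congrFun (congrFun h 0) 1
      have hz : ∀ j : Fin 2, aug (d1 comm 0 j) = 0 := by
        intro j
        have : d1 comm 0 j = fox comm j (comm 0) := rfl
        rw [this, comm]
        simp only [fox_mul, fox_inv, fox_of, map_add, map_mul, map_neg, aug_el]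
        fin_cases j <;> simp
      have h2 : aug s = 0 := by
        have e : s = (adj (d1 comm) * x + y * d1 comm) 0 1 := by
          rw [← h01]; simp
        rw [e, Matrix.add_apply, Matrix.mul_apply, Matrix.mul_apply]
        simp only [Fin.isValue, map_add, map_mul, adj, Matrix.of_apply,
          aug_conj, Finset.univ_unique, Fin.default_eq_zero, Finset.sum_singleton]
        rw [hz 0, hz 1]
        simp
      rw [hs, aug_el] at h2
      exact one_ne_zero h2
  refine ⟨gp_equiv, main, fun hall => ?_⟩
  obtain ⟨a, h1, h2⟩ := main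
  exact h2 (((hall 2 1 comm) a).mp h1)

end Pool.Agent.Results.MP_abda90_al.FreeAbelianRankTwo
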